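import Pool.Agent.XP.Pos
import Pool.Agent.XP.Neg

open scoped ComplexConjugate Manifold ContDiff Bundle ComplexOrder
open Complex

namespace Pool.Agent.Results.MP_f057aa_ag.ExteriorPowers

universe u₁ u₂ u₃ u₄

open Pool.Agent.F057 Pool.Agent.XP

/-- RC-positivity of the exterior powers of a Hermitian holomorphic vector bundle `(E, h)` of rank
`n`, with the metrics induced by `h`.

(1) If `p = n`, or `3 ≤ p ≤ n - 3`, or `p ∈ {2, n - 2}`, `p < n` and `n` is even, then
RC-positivity of `(Λ^p E, Λ^p h)` at a point implies RC-positivity of `(det E, det h)` there.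

(2) Let `1 ≤ p` and `1 ≤ m ≤ n`. If neither `p = m`, nor `3 ≤ p ≤ m - 3`, nor `p ∈ {2, m - 2}`,
`p < m` and `m` is even, then there is a metric on the trivial bundle of rank `n` over `ℂ^n` for
which `Λ^p` is RC-positive at the origin and `Λ^m` is not. In particular (`m = n`) the condition
in (1) is necessary and sufficient. -/
theorem result :
    (∀ (V : Type u₁) [NormedAddCommGroup V] [NormedSpace ℂ V] [FiniteDimensional ℂ V]
        (X : Type u₂) [TopologicalSpace X] [ChartedSpace V X] [IsManifold 𝓘(ℂ, V) ω X]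
        (F : Type u₃) [NormedAddCommGroup F] [NormedSpace ℂ F] [FiniteDimensional ℂ F]
        (E : X → Type u₄) [∀ x, AddCommGroup (E x)] [∀ x, Module ℂ (E x)]
        [∀ x, TopologicalSpace (E x)] [TopologicalSpace (Bundle.TotalSpace F E)]
        [FiberBundle F E] [VectorBundle ℂ F E] [ContMDiffVectorBundle ω F E 𝓘(ℂ, V)]
        (h : HermMetric V F E) (q : X) (p n : ℕ), Module.finrank ℂ F = n → 1 ≤ p →
        (p = n ∨ (p < n ∧ Cond p n)) → RCPositiveAltAt h p q → RCPositiveAltAt h n q) ∧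
    (∀ n p m : ℕ, 1 ≤ p → 1 ≤ m → m ≤ n → ¬ (p = m ∨ (p < m ∧ Cond p m)) →
      ∃ h : HermMetric (EuclideanSpace ℂ (Fin n)) (EuclideanSpace ℂ (Fin n))
          (Bundle.Trivial (EuclideanSpace ℂ (Fin n)) (EuclideanSpace ℂ (Fin n))),
        RCPositiveAltAt h p 0 ∧ ¬ RCPositiveAltAt h m 0) := by
  refine ⟨?_, ?_⟩
  · intro V _ _ _ X _ _ _ F _ _ _ E _ _ _ _ _ _ _ h q p n hn hp hpn hR
    subst hn
    exact pos h q hp hpn hR
  · intro n p m hp hm hmn hno
    exact neg n _ (by simp) hp hm hmn hno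

end Pool.Agent.Results.MP_f057aa_ag.ExteriorPowers
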