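import Pool.Agent.XP.Neg

open scoped ComplexConjugate Manifold ContDiff Bundle ComplexOrder
open Complex

namespace Pool.Agent.Results.MP_f057aa_ag.ExteriorVersusSymmetric

open Pool.Agent.F057 Pool.Agent.XP

/-- For each `n ≥ 2` there is a metric `h` on the trivial bundle `E` of rank `n` over `ℂ^n` such
that at the origin `(Λ^p E, Λ^p h)` is RC-positive for every `p ≥ 1`, while `(Sym^p E, Sym^p h)`
and `(E^⊗p, h^⊗p)` are not RC-positive for any `p ≥ 2`. -/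
theorem result (n : ℕ) (hn : 2 ≤ n) :
    ∃ h : HermMetric (EuclideanSpace ℂ (Fin n)) (EuclideanSpace ℂ (Fin n))
        (Bundle.Trivial (EuclideanSpace ℂ (Fin n)) (EuclideanSpace ℂ (Fin n))),
      (∀ p : ℕ, 1 ≤ p → RCPositiveAltAt h p 0) ∧
      ∀ p : ℕ, 2 ≤ p → ¬ RCPositiveSymAt h p 0 ∧ ¬ RCPositiveAt h p 0 := by
  obtain ⟨h, h1, h2⟩ := three n (EuclideanSpace ℂ (Fin n)) (by simp) hn
  exact ⟨h, h1, fun p hp => ⟨h2 p hp, fun h3 => h2 p hp fun a ha _ => h3 a ha⟩⟩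

end Pool.Agent.Results.MP_f057aa_ag.ExteriorVersusSymmetric
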